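import Mathlib
import Pool.Agent.H560.SQ.Stm
import Pool.Agent.H985.Chow.Asm

/-!
# The Möbius function around squares: assembly (helper118)
-/

set_option autoImplicit false

namespace Pool.Agent.H118.SQ

open Polynomial
open Pool.Agent.H985.Chow (mob MD)
open Pool.Agent.H985.Chow.Asm
open Pool.Agent.H985.KP (Good2 S_typ2)
open Pool.Agent.H560.SQ (S_sqW S_sq)

section gen

variable {K : Type} [Field K] [Fintype K]

/-- the polynomials `b` to which the bound applies -/
def gdP (P : ℕ → K[X] → Prop) (lo : ℕ) (b : K[X]) : Prop :=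
  ∃ (c : K) (b₁ : K[X]), c ≠ 0 ∧ b = C c * b₁ ∧ b₁.Monic ∧ lo ≤ b₁.natDegree ∧
    P b₁.natDegree b₁

open Classical in
/-- the bad `b` -/
noncomputable def badP (P : ℕ → K[X] → Prop) (j m : ℕ) : Finset (degreeLT K m) :=
  (Finset.univ : Finset (degreeLT K m)).filter
    (fun v : degreeLT K m => ¬ gdP P (m - j) (v : K[X]))

lemma mem_badP (P : ℕ → K[X] → Prop) (j m : ℕ) (v : degreeLT K m) :
    v ∈ badP P j m ↔ ¬ gdP P (m - j) (v : K[X]) := by
  classical
  rw [badP, Finset.mem_filter]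
  simp

open Classical in
lemma bad_le (P : ℕ → K[X] → Prop) (j m : ℕ) :
    (badP P j m).card ≤
      Fintype.card K ^ (m - j) + ∑ d ∈ Finset.Ico (m - j) m,
        (Fintype.card K - 1) * (MD K d ∩ {b | ¬ P d b}).ncard := by
  have hf : ∀ d, (MD K d ∩ {b | ¬ P d b}).Finite := fun d =>
    (MD_finite d).inter_of_left _
  set T : Finset K[X] := (Finset.univ.image (fun u : degreeLT K (m - j) => (u : K[X]))) ∪
    (Finset.Ico (m - j) m).biUnion (fun d =>
      ((Finset.univ : Finset K).erase 0).biUnion (fun c =>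
        (hf d).toFinset.image (fun b₁ => C c * b₁))) with hT
  have h2 : ((badP P j m).image (fun v : degreeLT K m => (v : K[X]))) ⊆ T := by
    intro b hb
    rw [Finset.mem_image] at hb
    obtain ⟨v, hv, rfl⟩ := hb
    rw [mem_badP] at hv
    rw [hT, Finset.mem_union]
    by_cases h0 : (v : K[X]) = 0
    · left
      rw [Finset.mem_image]
      exact ⟨0, Finset.mem_univ _, h0.symm⟩
    by_cases hlt : (v : K[X]).natDegree < m - j
    · left
      rw [Finset.mem_image]
      exact ⟨⟨v, mem_of_natDegree_lt (Or.inr hlt)⟩, Finset.mem_univ _, rfl⟩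
    right
    have hvd := natDegree_lt_of_mem v.2 h0
    set c := (v : K[X]).leadingCoeff with hc
    have hc0 : c ≠ 0 := leadingCoeff_ne_zero.mpr h0
    have hm : (C c⁻¹ * (v : K[X])).Monic := monic_C_mul_of_mul_leadingCoeff_eq_one
      (by rw [← hc]; exact inv_mul_cancel₀ hc0)
    have hd : (C c⁻¹ * (v : K[X])).natDegree = (v : K[X]).natDegree :=
      natDegree_C_mul (inv_ne_zero hc0)
    have he : (v : K[X]) = C c * (C c⁻¹ * (v : K[X])) := by
      rw [← mul_assoc, ← C_mul, mul_inv_cancel₀ hc0, C_1, one_mul]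
    rw [Finset.mem_biUnion]
    refine ⟨(v : K[X]).natDegree, Finset.mem_Ico.mpr ⟨not_lt.mp hlt, hvd⟩, ?_⟩
    rw [Finset.mem_biUnion]
    refine ⟨c, Finset.mem_erase.mpr ⟨hc0, Finset.mem_univ _⟩, ?_⟩
    rw [Finset.mem_image]
    refine ⟨C c⁻¹ * (v : K[X]), ?_, he.symm⟩
    rw [Set.Finite.mem_toFinset]
    refine ⟨⟨hm, hd⟩, fun hg => hv ?_⟩
    refine ⟨c, C c⁻¹ * (v : K[X]), hc0, he, hm, by rw [hd]; omega, ?_⟩
    rw [hd]
    exact hg
  rw [← Finset.card_image_of_injective _ (f := fun v : degreeLT K m => (v : K[X]))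
    Subtype.coe_injective]
  refine (Finset.card_le_card h2).trans ?_
  refine (Finset.card_union_le _ _).trans ?_
  apply add_le_add
  · refine Finset.card_image_le.trans ?_
    rw [Finset.card_univ, card_deg]
  · refine Finset.card_biUnion_le.trans ?_
    apply Finset.sum_le_sum
    intro d _
    refine Finset.card_biUnion_le.trans ?_
    have h3 : ∀ c ∈ (Finset.univ : Finset K).erase 0,
        ((hf d).toFinset.image (fun b₁ => C c * b₁)).card ≤
          (MD K d ∩ {b | ¬ P d b}).ncard := by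
      intro c _
      refine Finset.card_image_le.trans ?_
      rw [Set.ncard_eq_toFinset_card _ (hf d)]
    refine (Finset.sum_le_sum h3).trans ?_
    rw [Finset.sum_const, Finset.card_erase_of_mem (Finset.mem_univ _), Finset.card_univ,
      smul_eq_mul]

lemma bad_cardP (P : ℕ → K[X] → Prop) (j m d₀ : ℕ) (ε : ℝ) (hε : 0 < ε)
    (hj : (1 / (Fintype.card K : ℝ)) ^ j ≤ ε / 4)
    (hd : ∀ d : ℕ, d₀ ≤ d → ((MD K d ∩ {b | ¬ P d b}).ncard : ℝ) ≤
      ε / 4 * (Fintype.card K : ℝ) ^ d) (hn : d₀ + j ≤ m) :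
    ((badP P j m).card : ℝ) ≤ ε / 2 * (Fintype.card K : ℝ) ^ m := by
  have hq1 : (1 : ℝ) < Fintype.card K := by exact_mod_cast Fintype.one_lt_card
  have hq0 : (0 : ℝ) < Fintype.card K := by linarith
  have hqm : (0 : ℝ) < (Fintype.card K : ℝ) ^ m := pow_pos hq0 _
  have h2 : ((badP P j m).card : ℝ) ≤
    (Fintype.card K : ℝ) ^ (m - j) + ∑ d ∈ Finset.Ico (m - j) m,
      ((Fintype.card K : ℝ) - 1) * (MD K d ∩ {b | ¬ P d b}).ncard := by
    have h3 := bad_le P j m
    have h4 : ((badP P j m).card : ℝ) ≤ ((Fintype.card K ^ (m - j) +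
      ∑ d ∈ Finset.Ico (m - j) m,
      (Fintype.card K - 1) * (MD K d ∩ {b | ¬ P d b}).ncard : ℕ) : ℝ) := by
      exact_mod_cast h3
    refine h4.trans (le_of_eq ?_)
    push_cast [Nat.cast_sub (Fintype.card_pos (α := K))]
    rfl
  have h5 : (Fintype.card K : ℝ) ^ (m - j) ≤ ε / 4 * (Fintype.card K : ℝ) ^ m := by
    have h6 : (Fintype.card K : ℝ) ^ m =
        (Fintype.card K : ℝ) ^ (m - j) * (Fintype.card K : ℝ) ^ j := by
      rw [← pow_add]
      congr 1
      omega
    have h7 : (Fintype.card K : ℝ) ^ (m - j) =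
        (1 / (Fintype.card K : ℝ)) ^ j * (Fintype.card K : ℝ) ^ m := by
      rw [h6, one_div, inv_pow]
      field_simp
    rw [h7]
    exact mul_le_mul_of_nonneg_right hj hqm.le
  have h8 : ∑ d ∈ Finset.Ico (m - j) m,
      ((Fintype.card K : ℝ) - 1) * (MD K d ∩ {b | ¬ P d b}).ncard ≤
      ε / 4 * (Fintype.card K : ℝ) ^ m := by
    calc ∑ d ∈ Finset.Ico (m - j) m,
        ((Fintype.card K : ℝ) - 1) * (MD K d ∩ {b | ¬ P d b}).ncard
        ≤ ∑ d ∈ Finset.Ico (m - j) m,
          ((Fintype.card K : ℝ) - 1) * (ε / 4 * (Fintype.card K : ℝ) ^ d) := by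
          apply Finset.sum_le_sum
          intro d hdm
          rw [Finset.mem_Ico] at hdm
          apply mul_le_mul_of_nonneg_left (hd d (by omega)) (by linarith)
      _ ≤ ∑ d ∈ Finset.range m,
          ((Fintype.card K : ℝ) - 1) * (ε / 4 * (Fintype.card K : ℝ) ^ d) := by
          apply Finset.sum_le_sum_of_subset_of_nonneg
          · intro d hdm
            rw [Finset.mem_Ico] at hdm
            exact Finset.mem_range.mpr hdm.2
          · intro d _ _
            have : (0 : ℝ) < (Fintype.card K : ℝ) ^ d := pow_pos hq0 _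
            apply mul_nonneg (by linarith)
            positivity
      _ = ε / 4 * ((∑ d ∈ Finset.range m, (Fintype.card K : ℝ) ^ d) *
            ((Fintype.card K : ℝ) - 1)) := by
          rw [Finset.sum_mul, Finset.mul_sum]
          apply Finset.sum_congr rfl
          intro d _
          ring
      _ = ε / 4 * ((Fintype.card K : ℝ) ^ m - 1) := by rw [geom_sum_mul]
      _ ≤ ε / 4 * (Fintype.card K : ℝ) ^ m := by
          apply mul_le_mul_of_nonneg_left _ (by linarith)
          linarith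
  linarith

end gen

section main

variable {K : Type} [Field K] [Fintype K] [CharP K 2]

/-- the polynomials of degree less than `h` -/
lemma sum_int (h : ℕ) (F : K[X] → ℝ) :
    ∑ᶠ δ ∈ {δ : K[X] | δ.degree < (h : WithBot ℕ)}, F δ =
      ∑ v' : degreeLT K (h / 2), ∑ v : degreeLT K ((h + 1) / 2),
        F (G (v : K[X]) (v' : K[X])) := by
  have h1 : {δ : K[X] | δ.degree < (h : WithBot ℕ)} =
      Set.range (fun p : degreeLT K (h / 2) × degreeLT K ((h + 1) / 2) =>
      G (p.2 : K[X]) (p.1 : K[X])) := by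
    ext g
    constructor
    · intro hg
      have hg' : ∀ i, h ≤ i → g.coeff i = 0 := by
        rw [← degree_lt_iff_coeff_zero]
        exact hg
      obtain ⟨a, b, rfl⟩ := G_surj g
      refine ⟨(⟨b, mem_deg.2 fun i hi => ?_⟩, ⟨a, mem_deg.2 fun i hi => ?_⟩), rfl⟩
      · have h2 := hg' (2 * i + 1) (by omega)
        rw [coeff_G_odd] at h2
        exact pow_eq_zero_iff (by norm_num) |>.mp h2
      · have h2 := hg' (2 * i) (by omega)
        rw [coeff_G_even] at h2
        exact pow_eq_zero_iff (by norm_num) |>.mp h2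
    · rintro ⟨p, hp⟩
      rw [← hp]
      show (G (p.2 : K[X]) (p.1 : K[X])).degree < (h : WithBot ℕ)
      rw [degree_lt_iff_coeff_zero]
      intro k hk
      rcases Nat.even_or_odd' k with ⟨i, rfl | rfl⟩
      · rw [coeff_G_even, mem_deg.1 p.2.2 i (by omega), zero_pow (by norm_num)]
      · rw [coeff_G_odd, mem_deg.1 p.1.2 i (by omega), zero_pow (by norm_num)]
  have hinj : Function.Injective (fun p : degreeLT K (h / 2) × degreeLT K ((h + 1) / 2) =>
      G (p.2 : K[X]) (p.1 : K[X])) := by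
    intro p p' he
    have h2 := G_inj he
    exact Prod.ext (Subtype.ext h2.2) (Subtype.ext h2.1)
  rw [h1, finsum_mem_range hinj, finsum_eq_sum_of_fintype, Fintype.sum_prod_type]

end main

/-- Task SQ. -/
theorem sq (hw : S_sqW) (ht : Pool.Agent.H985.KP.S_typ2) : S_sq := by
  intro K _ _ _ ε hε
  classical
  have hq1 : (1 : ℝ) < Fintype.card K := by exact_mod_cast Fintype.one_lt_card
  have hq0 : (0 : ℝ) < Fintype.card K := by linarith
  obtain ⟨δ, E₀, hδ, d₀, hd₀⟩ := ht K 1 one_ne_zero (ε / 4) (by linarith)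
  obtain ⟨β₀, hβ₀⟩ := hw K (ε / 4) δ E₀ (by linarith) hδ
  obtain ⟨j, hj⟩ := exists_pow_lt_of_lt_one (show (0 : ℝ) < ε / 4 by linarith)
    (show 1 / (Fintype.card K : ℝ) < 1 by rw [div_lt_one hq0]; exact hq1)
  refine ⟨2 * (d₀ + β₀ + j), fun h hh A hA hhA => ?_⟩
  rw [sum_int]
  set N := (h + 1) / 2 with hN
  have hqN : (0 : ℝ) < (Fintype.card K : ℝ) ^ N := pow_pos hq0 _
  have hqm : (0 : ℝ) < (Fintype.card K : ℝ) ^ (h / 2) := pow_pos hq0 _
  set T : degreeLT K (h / 2) → ℝ := fun v' => ∑ v : degreeLT K N,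
    (mob (A ^ 2 + G (v : K[X]) (v' : K[X])) : ℝ) with hT
  have htriv : ∀ v', |T v'| ≤ (Fintype.card K : ℝ) ^ N := by
    intro v'
    refine (Finset.abs_sum_le_sum_abs _ _).trans ?_
    refine (Finset.sum_le_sum fun v _ => abs_mob _).trans ?_
    rw [Finset.sum_const, Finset.card_univ, card_deg, nsmul_eq_mul, mul_one]
    push_cast
    exact le_rfl
  have hgood : ∀ v', v' ∉ badP (Good2 1 δ E₀) j (h / 2) →
      |T v'| ≤ (Fintype.card K : ℝ) ^ N * (ε / 4) := by
    intro v' hv'
    rw [mem_badP, not_not] at hv'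
    obtain ⟨c, b₁, hc, hb, hb1, hlo, hg⟩ := hv'
    have hb0 : (v' : K[X]) ≠ 0 := by
      rw [hb]
      exact mul_ne_zero (C_ne_zero.2 hc) hb1.ne_zero
    have hdeg : b₁.natDegree < h / 2 := by
      have h1 := natDegree_lt_of_mem v'.2 hb0
      rwa [hb, natDegree_C_mul hc] at h1
    refine avg N (b₁.natDegree + 1) 1 (fun u hu => ?_)
      (fun x => (mob (A ^ 2 + G x (v' : K[X])) : ℝ)) (ε / 4) (fun v hv => ?_)
    · rw [one_mul]
      rw [mem_deg] at hu ⊢
      exact fun i hi => hu i (by omega)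
    · have hAv : (A + v).Monic ∧ (A + v).natDegree = A.natDegree := by
        have h1 : v.degree < A.degree := by
          rw [mem_degreeLT] at hv
          refine lt_of_lt_of_le hv ?_
          rw [degree_eq_natDegree hA.ne_zero]
          exact_mod_cast (show N ≤ A.natDegree by omega)
        exact ⟨hA.add_of_left h1, natDegree_add_eq_left_of_degree_lt h1⟩
      have h2 := hβ₀ b₁.natDegree (by omega) A.natDegree c b₁ (A + v) (by omega) hc ⟨hb1, rfl⟩ hg
        hAv.1 hAv.2
      rw [window_finsum] at h2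
      have h3 : ∀ u : degreeLT K (b₁.natDegree + 1),
          (mob (A ^ 2 + G (v + 1 * (u : K[X])) (v' : K[X])) : ℝ) =
            (mob ((A + v + (u : K[X])) ^ 2 + X * (C c * b₁) ^ 2) : ℝ) := by
        intro u
        have h4 : A ^ 2 + G (v + 1 * (u : K[X])) (v' : K[X]) =
            (A + v + (u : K[X])) ^ 2 + X * (C c * b₁) ^ 2 := by
          rw [G, hb, one_mul, add_assoc A v (u : K[X]), CharTwo.add_sq A (v + (u : K[X]))]
          ring
        rw [h4]
      rw [Finset.sum_congr rfl fun u _ => h3 u,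
        mul_comm ((Fintype.card K : ℝ) ^ (b₁.natDegree + 1)) (ε / 4)]
      exact h2
  have hbad := bad_cardP (K := K) (Good2 1 δ E₀) j (h / 2) (d₀ + β₀) ε hε hj.le
    (fun d hd => hd₀ d (by omega)) (by omega)
  have hall : ∀ v', |T v'| ≤ (Fintype.card K : ℝ) ^ N *
      ((if v' ∈ badP (Good2 1 δ E₀) j (h / 2) then 1 else 0) + ε / 4) := by
    intro v'
    split_ifs with h'
    · refine (htriv v').trans ?_
      have : (Fintype.card K : ℝ) ^ N * 1 ≤ (Fintype.card K : ℝ) ^ N * (1 + ε / 4) :=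
        mul_le_mul_of_nonneg_left (by linarith) hqN.le
      linarith
    · rw [zero_add]
      exact hgood v' h'
  refine (Finset.abs_sum_le_sum_abs _ _).trans ?_
  refine (Finset.sum_le_sum (fun v' _ => hall v')).trans ?_
  rw [← Finset.mul_sum, Finset.sum_add_distrib, Finset.sum_boole, Finset.sum_const,
    Finset.card_univ, card_deg, nsmul_eq_mul, Finset.filter_mem_eq_inter, Finset.univ_inter]
  push_cast
  have hnn : (Fintype.card K : ℝ) ^ h = (Fintype.card K : ℝ) ^ N * (Fintype.card K : ℝ) ^ (h / 2) := by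
    rw [← pow_add]
    congr 1
    omega
  rw [hnn]
  have h8 : 0 < ε / 4 * (Fintype.card K : ℝ) ^ (h / 2) := by positivity
  have h9 : ((badP (K := K) (Good2 1 δ E₀) j (h / 2)).card : ℝ) +
      (Fintype.card K : ℝ) ^ (h / 2) * (ε / 4) ≤ ε * (Fintype.card K : ℝ) ^ (h / 2) := by
    linarith
  calc (Fintype.card K : ℝ) ^ N * (((badP (K := K) (Good2 1 δ E₀) j (h / 2)).card : ℝ) +
        (Fintype.card K : ℝ) ^ (h / 2) * (ε / 4))
      ≤ (Fintype.card K : ℝ) ^ N * (ε * (Fintype.card K : ℝ) ^ (h / 2)) :=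
        mul_le_mul_of_nonneg_left h9 hqN.le
    _ = _ := by ring

end Pool.Agent.H118.SQ
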